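import Pool.Agent.J6H54.CG.Stm

/-!
# CG-16: classification of the conjugacy classes of exponent `m ≥ 1` (helper57 for helper54)
-/

set_option autoImplicit false

namespace Pool.Agent.J6H57.CG16

open Pool.Agent.J6H54.CG Finset

lemma nfacts {k m : ℕ} (hk : 2 ≤ k) (hm : 1 ≤ m) : k ^ m - 1 + 1 = k ^ m ∧ 1 ≤ k ^ m - 1 := by
  have h1 : k ^ 1 ≤ k ^ m := Nat.pow_le_pow_right (by omega) hm
  rw [pow_one] at h1
  omega

lemma pow_modEq {k m : ℕ} (hk : 2 ≤ k) (hm : 1 ≤ m) (t : ℕ) :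
    k ^ (m * t) ≡ 1 [MOD k ^ m - 1] := by
  have h := (nfacts hk hm).1
  have h1 : k ^ m ≡ 1 [MOD k ^ m - 1] := by
    conv_lhs => rw [← h]
    exact Nat.add_modEq_left
  rw [pow_mul]
  simpa using h1.pow t

lemma red {k m : ℕ} (hk : 2 ≤ k) (hm : 1 ≤ m) (j r : ℕ) :
    k ^ j * r ≡ k ^ (j % m) * r [MOD k ^ m - 1] := by
  have e : k ^ j = k ^ (m * (j / m)) * k ^ (j % m) := by rw [← pow_add, Nat.div_add_mod]
  rw [e]
  have h := ((pow_modEq hk hm (j / m)).mul_right (k ^ (j % m))).mul_right r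
  simpa using h

lemma rep_le {k m : ℕ} (hk : 2 ≤ k) (hm : 1 ≤ m) {r : ℕ} (hr : r ∈ Rep k m) (j : ℕ) :
    r ≤ (k ^ j * r) % (k ^ m - 1) := by
  have h := (Finset.mem_filter.1 hr).2 (j % m) (Nat.mod_lt _ hm)
  have h2 : (k ^ j * r) % (k ^ m - 1) = (k ^ (j % m) * r) % (k ^ m - 1) := red hk hm j r
  rw [h2]
  exact h

lemma rep_lt {k m : ℕ} {r : ℕ} (hr : r ∈ Rep k m) : r < k ^ m - 1 :=
  Finset.mem_range.1 (Finset.mem_filter.1 hr).1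

lemma cast_n {k m : ℕ} (hk : 2 ≤ k) (hm : 1 ≤ m) : ((k ^ m - 1 : ℕ) : ℤ) = (k : ℤ) ^ m - 1 := by
  have h := (nfacts hk hm).1
  have h2 : ((k ^ m - 1 : ℕ) : ℤ) + 1 = ((k ^ m : ℕ) : ℤ) := by exact_mod_cast h
  push_cast at h2
  linarith

lemma of_cj {k m : ℕ} (hk : 2 ≤ k) (hm : 1 ≤ m) {r r' : ℕ}
    (h : Cj k ((r : ℚ), (m : ℤ)) ((r' : ℚ), (m : ℤ))) :
    ∃ j : ℕ, r' ≡ k ^ j * r [MOD k ^ m - 1] := by
  obtain ⟨⟨y, i⟩, ⟨e, b, hb⟩, h⟩ := h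
  have h1 : y + (k : ℚ) ^ i * r = r' + (k : ℚ) ^ (m : ℤ) * y := congrArg Prod.fst h
  rw [zpow_natCast] at h1
  obtain ⟨M, hM, hMe⟩ : ∃ M : ℕ, M = m * (e + i.natAbs) ∧ e + i.natAbs ≤ M :=
    ⟨_, rfl, Nat.le_mul_of_pos_left _ (by omega)⟩
  obtain ⟨j, hj⟩ : ∃ j : ℕ, (j : ℤ) = i + M := ⟨(i + M).toNat, Int.toNat_of_nonneg (by omega)⟩
  refine ⟨j, ?_⟩
  have h2 : ((k : ℤ) ^ M * r' : ℤ) = k ^ j * r - (k ^ m - 1) * (k ^ (M - e) * b) := by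
    have h3 : ((k : ℚ) ^ M * r') = k ^ j * r - (k ^ m - 1) * (k ^ (M - e) * b) := by
      have hb' : (b : ℚ) = y * (k : ℚ) ^ e := by rw [← hb, zpow_natCast]
      have e1 : (k : ℚ) ^ j = (k : ℚ) ^ M * (k : ℚ) ^ i := by
        rw [← zpow_natCast, hj, zpow_add₀ (kne hk), zpow_natCast, mul_comm]
      have e2 : (k : ℚ) ^ (M - e) * (k : ℚ) ^ e = (k : ℚ) ^ M := by
        rw [← pow_add]; congr 1; omega
      rw [hb', e1]
      have e3 : (r' : ℚ) = (k : ℚ) ^ i * r - ((k : ℚ) ^ m - 1) * y := by linear_combination -h1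
      rw [e3]
      linear_combination (((k : ℚ) ^ m - 1) * y) * e2
    exact_mod_cast h3
  have h4 : k ^ M * r' ≡ k ^ j * r [MOD k ^ m - 1] := by
    rw [Nat.modEq_iff_dvd, cast_n hk hm]
    refine ⟨k ^ (M - e) * b, ?_⟩
    push_cast
    linear_combination -h2
  have h5 : k ^ M * r' ≡ r' [MOD k ^ m - 1] := by
    rw [hM]
    simpa using (pow_modEq hk hm (e + i.natAbs)).mul_right r'
  exact h5.symm.trans h4

lemma part3 {k m : ℕ} (hk : 2 ≤ k) (hm : 1 ≤ m) (r j : ℕ) :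
    Cj k ((r : ℚ), (m : ℤ)) ((((k ^ j * r) % (k ^ m - 1) : ℕ) : ℚ), (m : ℤ)) := by
  refine ⟨((((k ^ j * r) / (k ^ m - 1) : ℕ) : ℚ), (j : ℤ)), ka_nat _, ?_⟩
  have h := Nat.div_add_mod (k ^ j * r) (k ^ m - 1)
  have hq : ((k ^ m - 1 : ℕ) : ℚ) = (k : ℚ) ^ m - 1 := by
    have h0 := congrArg (Int.cast : ℤ → ℚ) (cast_n hk hm)
    simpa using h0
  have h2 := congrArg (Nat.cast : ℕ → ℚ) h
  rw [Nat.cast_add, Nat.cast_mul, Nat.cast_mul, Nat.cast_pow, hq] at h2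
  apply Prod.ext
  · simp only [mul_fst, zpow_natCast]
    linear_combination -h2
  · simp only [mul_snd]
    ring

lemma part1 {k m : ℕ} (hk : 2 ≤ k) (hm : 1 ≤ m) (p : Pt) (hp : KA k p.1) (hpm : p.2 = m) :
    ∃ r ∈ Rep k m, Cj k p ((r : ℚ), (m : ℤ)) := by
  obtain ⟨d, a, ha⟩ := hp
  rw [zpow_natCast] at ha
  have hN := (nfacts hk hm).2
  obtain ⟨N, hNdef⟩ : ∃ N : ℕ, N = k ^ m - 1 := ⟨_, rfl⟩
  rw [← hNdef] at hN
  have hNz : (N : ℤ) = (k : ℤ) ^ m - 1 := by rw [hNdef]; exact cast_n hk hm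
  have hr1 : 0 ≤ a % (N : ℤ) := Int.emod_nonneg _ (by omega)
  obtain ⟨r₁, hr₁⟩ : ∃ r₁ : ℕ, (r₁ : ℤ) = a % (N : ℤ) := ⟨(a % (N : ℤ)).toNat, Int.toNat_of_nonneg hr1⟩
  classical
  have hne : ∃ s : ℕ, ∃ j : ℕ, s = (k ^ j * r₁) % N := ⟨_, 0, rfl⟩
  obtain ⟨j, hj⟩ := Nat.find_spec hne
  set r := Nat.find hne with hr
  refine ⟨r, ?_, ?_⟩
  · rw [Pool.Agent.J6H54.CG.Rep, Finset.mem_filter, Finset.mem_range, ← hNdef]
    refine ⟨?_, ?_⟩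
    · rw [hj]; exact Nat.mod_lt _ hN
    · intro j' _
      apply Nat.find_min' hne
      refine ⟨j' + j, ?_⟩
      rw [hj, Nat.mul_mod_mod, pow_add, mul_assoc]
  · have h1 := Int.mul_ediv_add_emod a N
    rw [← hr₁] at h1
    have h2 := Nat.div_add_mod (k ^ j * r₁) N
    rw [← hj] at h2
    have h3 : (N : ℤ) * (((k ^ j * r₁) / N : ℕ) : ℤ) + (r : ℤ) = (k : ℤ) ^ j * r₁ := by
      exact_mod_cast h2
    have h4 : (k : ℤ) ^ j * a = ((k : ℤ) ^ m - 1) * ((k : ℤ) ^ j * (a / N) +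
        (((k ^ j * r₁) / N : ℕ) : ℤ)) + r := by
      rw [← hNz]
      linear_combination -h3 - (k : ℤ) ^ j * h1
    refine ⟨((((k : ℤ) ^ j * (a / N) + (((k ^ j * r₁) / N : ℕ) : ℤ) : ℤ) : ℚ), ((d + j : ℕ) : ℤ)),
      ka_int _, ?_⟩
    have h5 : (k : ℚ) ^ j * a = ((k : ℚ) ^ m - 1) * (((k : ℤ) ^ j * (a / N) +
        (((k ^ j * r₁) / N : ℕ) : ℤ) : ℤ) : ℚ) + r := by
      exact_mod_cast h4
    apply Prod.ext
    · simp only [mul_fst, zpow_natCast]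
      rw [pow_add]
      linear_combination h5 + (k : ℚ) ^ j * ha
    · simp only [mul_snd, hpm]
      ring

theorem m16 : S_class := by
  intro k hk m hm
  refine ⟨part1 hk hm, ?_, part3 hk hm⟩
  intro r hr r' hr' h
  obtain ⟨j, hj⟩ := of_cj hk hm h
  have h1 : r ≤ r' := by
    have := rep_le hk hm hr j
    have h2 : r' % (k ^ m - 1) = (k ^ j * r) % (k ^ m - 1) := hj
    rw [← h2, Nat.mod_eq_of_lt (rep_lt hr')] at this
    exact this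
  have h2 : r' ≤ r := by
    have := rep_le hk hm hr' (m * j - j)
    have h3 : k ^ (m * j - j) * r' ≡ r [MOD k ^ m - 1] := by
      have h4 := hj.mul_left (k ^ (m * j - j))
      rw [← mul_assoc, ← pow_add, Nat.sub_add_cancel (Nat.le_mul_of_pos_left _ (by omega))] at h4
      have h5 := (pow_modEq hk hm j).mul_right r
      rw [one_mul] at h5
      exact h4.trans h5
    have h4 : (k ^ (m * j - j) * r') % (k ^ m - 1) = r % (k ^ m - 1) := h3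
    rw [h4, Nat.mod_eq_of_lt (rep_lt hr)] at this
    exact this
  exact le_antisymm h1 h2

end Pool.Agent.J6H57.CG16
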