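import Pool.Agent.J6H54.CG.Stm

/-!
# CG-27: conjugacy classes in the group and in the model (helper57 for helper54)
-/

set_option autoImplicit false

namespace Pool.Agent.J6H57.CG27

open Pool.Agent.J6H54.CG

lemma cj_iff {k : ℕ} {G : Type} [Group G] {f : G → Pt} (hM : Mdl k G f) (g h : G) :
    ConjClasses.mk g = ConjClasses.mk h ↔ Cj k (f g) (f h) := by
  rw [ConjClasses.mk_eq_mk_iff_isConj, isConj_iff]
  constructor
  · rintro ⟨c, hc⟩
    refine ⟨f c, (hM.ran (f c)).1 ⟨c, rfl⟩, ?_⟩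
    rw [← hM.map_mul, ← hM.map_mul]
    congr 1
    rw [← hc]
    group
  · rintro ⟨c, hc, h1⟩
    obtain ⟨c, rfl⟩ := (hM.ran c).2 hc
    refine ⟨c, ?_⟩
    rw [← hM.map_mul, ← hM.map_mul] at h1
    rw [hM.inj h1]
    group

lemma cset_finite {G : Type} [Group G] (S : Finset G) (n : ℕ) : (cset S n).Finite := by
  have hU : Set.Finite {x : G | x ∈ S ∨ x⁻¹ ∈ S} := by
    have h1 : Set.Finite ((S : Set G) ∪ (fun x : G => x⁻¹) ⁻¹' (S : Set G)) :=
      S.finite_toSet.union (S.finite_toSet.preimage inv_injective.injOn)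
    exact h1.subset (fun x hx => hx)
  haveI : Finite {x : G // x ∈ S ∨ x⁻¹ ∈ S} := hU
  have h2 := (List.finite_length_le {x : G // x ∈ S ∨ x⁻¹ ∈ S} n).image
    (fun l => ConjClasses.mk (l.map Subtype.val).prod)
  apply h2.subset
  rintro c ⟨⟨g, hg, l, hl, hS, hprod⟩, -⟩
  lift l to List {x : G // x ∈ S ∨ x⁻¹ ∈ S} using hS
  refine ⟨l, ?_, ?_⟩
  · simpa using hl
  · rw [← hg, ← hprod]

theorem m27 (h15 : S_cj) : S_cset := by
  intro k G _ f S T hM hT hw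
  obtain ⟨-, -, -, -, -, h6, h7, -, h9⟩ := h15 k T hT
  have hka : ∀ g, KA k (f g).1 := fun g => (hM.ran (f g)).1 ⟨g, rfl⟩
  -- words give an upper bound for the length
  have hup : ∀ (g : G) (l : List G), (∀ x ∈ l, x ∈ S ∨ x⁻¹ ∈ S) → l.prod = g →
      len k T (f g) ≤ l.length := by
    intro g l hl hp
    obtain ⟨w, hw1, hw2, hw3⟩ := (hw g l.length).1 ⟨l, rfl, hl, hp⟩
    rw [← hw1]
    exact len_le' hw2 hw3
  -- the class length is realized by a word
  have hre : ∀ g : G, ∃ g' : G, ConjClasses.mk g' = ConjClasses.mk g ∧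
      ∃ l : List G, l.length = clen k T (f g) ∧ (∀ x ∈ l, x ∈ S ∨ x⁻¹ ∈ S) ∧ l.prod = g' := by
    intro g
    obtain ⟨q, hq, hc, hl⟩ := h9 (f g) (hka g)
    obtain ⟨g', rfl⟩ := (hM.ran q).2 hq
    refine ⟨g', ((cj_iff hM g g').2 hc).symm, ?_⟩
    obtain ⟨w, hw1, hw2, hw3⟩ := exists_geo hT hq
    exact (hw g' _).2 ⟨w, hw3.trans hl, hw1, hw2⟩
  refine ⟨cset_finite S, ?_, cj_iff hM⟩
  intro g n
  constructor
  · rintro ⟨⟨g', hg', l, hl, hS, hp⟩, hB⟩
    apply le_antisymm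
    · rw [h6 _ _ ((cj_iff hM g g').1 hg'.symm)]
      exact (h7 _).trans ((hup g' l hS hp).trans hl)
    · obtain ⟨g'', hg'', l', hl', hS', hp'⟩ := hre g
      rw [← hl']
      exact hB g'' hg'' l' hS' hp'
  · rintro rfl
    refine ⟨?_, ?_⟩
    · obtain ⟨g'', hg'', l', hl', hS', hp'⟩ := hre g
      exact ⟨g'', hg'', l', hl'.le, hS', hp'⟩
    · intro g' hg' l hS hp
      rw [h6 _ _ ((cj_iff hM g g').1 hg'.symm)]
      exact (h7 _).trans (hup g' l hS hp)

end Pool.Agent.J6H57.CG27
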